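import Pool.Agent.H31.SW.TargetsA
import Pool.Agent.H29.DW.Tools
import Pool.Agent.H23.LC.Targets
import Pool.Agent.H23.LB.Targets

/-!
# BP: the bound for the first sum (sub-Weyl version)
-/

set_option autoImplicit false

open NumberField NumberField.InfinitePlace NumberField.Units
  NumberField.Units.dirichletUnitTheorem MeasureTheory Set Filter Complex
open scoped nonZeroDivisors ENNReal

namespace Pool.Agent.H2.SWL

open Pool.Agent.H25.HK Pool.Agent.H23.LB Pool.Agent.H23.LC Pool.Agent.H31.SW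
open Pool.Agent.H28.RC (Rep ft idl)
open Pool.Agent.H29.DW (dg Rl lf wv Pos Wg cpar Ci om zs rv Wt an_eq norm_aq rv_iff le_norm_cpar
  norm_cpar_le one_le_Ci sum_mult)

private theorem norm_EE (z : ℂ) : ‖EE z‖ = 1 := by
  unfold EE
  rw [← Complex.ofReal_neg]
  exact Complex.norm_exp_ofReal_mul_I _

private theorem pz_norm (r : Bool) (x : ℂ) : ‖pz r x‖ ≤ 1 := by
  unfold pz
  rw [Complex.norm_real, Real.norm_eq_abs, abs_of_nonneg bz.nonneg]
  exact bz.le_one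

private theorem pz_zero (r : Bool) (x : ℂ) (h : 1 / 16 < ‖x‖) : pz r x = 0 := by
  unfold pz
  have h1 : bz x = 0 := by
    refine bz.zero_of_le_dist ?_
    rw [dist_zero_right]
    show (1 : ℝ) / 10000 ≤ ‖x‖
    linarith
  rw [h1, Complex.ofReal_zero]

section

variable {K : Type} [Field K] [NumberField K]

private theorem Tf_pz (c : InfinitePlace K → ℂ) : Tf (fun v => GG (pz (rv v)) (c v)) := by
  refine ⟨fun v => ?_, fun v w => ?_, fun v w hw => ?_⟩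
  · unfold GG EE pz
    have h1 : Measurable fun w : ℂ => ((bz (w - 1) : ℝ) : ℂ) :=
      Complex.measurable_ofReal.comp
        (bz.continuous.measurable.comp (measurable_id.sub_const 1))
    refine Measurable.mul ?_ h1
    refine Complex.measurable_exp.comp ?_
    refine Measurable.mul_const ?_ _
    refine Measurable.neg ?_
    refine Complex.measurable_ofReal.comp (Complex.measurable_re.comp ?_)
    exact Measurable.const_mul Complex.measurable_log _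
  · simp only [GG]
    rw [norm_mul, norm_EE, one_mul]
    exact pz_norm _ _
  · simp only [GG]
    rw [pz_zero _ _ hw, mul_zero]

private theorem ec_norm (ν : InfinitePlace K → ℝ) (z : logSpace K) : ‖ec K ν z‖ = 1 := by
  unfold ec
  rw [← Complex.ofReal_neg]
  exact Complex.norm_exp_ofReal_mul_I _

private theorem ek_norm (k : InfinitePlace K → ℤ) (θ : InfinitePlace K → ℝ) : ‖ek k θ‖ = 1 := by
  unfold ek
  rw [norm_prod]
  refine Finset.prod_eq_one fun v _ => ?_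
  rw [norm_zpow, an_eq, norm_aq, one_zpow]

private theorem one_le_Nf {I : Ideal (𝓞 K)} (hI : I ≠ ⊥) : 1 ≤ Nf K I := by
  unfold Nf
  have : Ideal.absNorm I ≠ 0 := fun h => hI (Ideal.absNorm_eq_zero_iff.1 h)
  exact_mod_cast Nat.one_le_iff_ne_zero.2 this

private theorem one_le_disc : 1 ≤ |(discr K : ℝ)| := by
  have h := Int.one_le_abs (discr_ne_zero K)
  exact_mod_cast h

private theorem one_le_tor : (1 : ℝ) ≤ (torsionOrder K : ℝ) := by
  exact_mod_cast Nat.one_le_iff_ne_zero.2 (NeZero.ne _)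

private theorem Rl_cpar (k : InfinitePlace K → ℤ) (ν : InfinitePlace K → ℝ) (t : ℝ)
    (v : InfinitePlace K) : Rl (rv v) (cpar k ν t v) := by
  intro hv
  have h1 : v.IsReal := (rv_iff v).1 hv
  unfold cpar
  rw [if_pos h1]
  exact Complex.ofReal_im _

private theorem PP_le {n : ℕ} (hn : Module.finrank ℚ K = n) (k : InfinitePlace K → ℤ)
    (ν : InfinitePlace K → ℝ) (t : ℝ) :
    PP (fun v => 1 + ‖cpar k ν t v‖) ≤ 3 ^ n * Ci k ν t := by
  unfold PP Ci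
  rw [← sum_mult hn, ← Finset.prod_pow_eq_pow_sum, ← Finset.prod_mul_distrib]
  refine Finset.prod_le_prod (fun v _ => by positivity) fun v _ => ?_
  rw [← mul_pow]
  refine pow_le_pow_left₀ (by positivity) ?_ _
  have h1 := norm_cpar_le k ν t v
  have h2 := abs_nonneg (t - ν v)
  have h3 := abs_nonneg (k v : ℝ)
  linarith

private theorem Ci_le_PP {n : ℕ} (hn : Module.finrank ℚ K = n) (k : InfinitePlace K → ℤ)
    (ν : InfinitePlace K → ℝ) (t : ℝ)
    (hk : ∀ v : InfinitePlace K, v.IsReal → k v = 0 ∨ k v = 1) :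
    Ci k ν t ≤ 3 ^ n * PP (fun v => 1 + ‖cpar k ν t v‖) := by
  unfold PP Ci
  rw [← sum_mult hn, ← Finset.prod_pow_eq_pow_sum, ← Finset.prod_mul_distrib]
  refine Finset.prod_le_prod (fun v _ => by positivity) fun v _ => ?_
  rw [← mul_pow]
  refine pow_le_pow_left₀ (by positivity) ((le_norm_cpar k ν t hk v).trans ?_) _
  have h1 : max 1 ‖cpar k ν t v‖ ≤ 1 + ‖cpar k ν t v‖ :=
    max_le (by have := norm_nonneg (cpar k ν t v); linarith) (by linarith)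
  linarith

private theorem Wt_bound {κ X B : ℝ} {v : ℝ → ℂ} (h : Wt κ X B v) :
    ∃ C : ℝ, ∀ x : ℝ, 1 ≤ x → ‖v x‖ ≤ C * x ^ (-(3 / 2) : ℝ) := by
  obtain ⟨g, hgm, hg, hv⟩ := h 1 (Or.inr rfl)
  have hi : Integrable (fun y : ℝ => Real.exp (-(1 / 4) * y ^ 2)) :=
    integrable_exp_neg_mul_sq (by norm_num)
  refine ⟨B * X ^ (1 : ℝ) * ∫ y : ℝ, Real.exp (-(1 / 4) * y ^ 2), fun x hx => ?_⟩
  have hx0 : 0 < x := by linarith
  rw [hv x hx0]
  have h1 : ∀ y : ℝ, ‖g y * (x : ℂ) ^ (-(1 / 2 + (1 : ℝ) + y * I : ℂ))‖ ≤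
      (B * X ^ (1 : ℝ) * x ^ (-(3 / 2) : ℝ)) * Real.exp (-(1 / 4) * y ^ 2) := by
    intro y
    have h2 : (-(1 / 2 + (1 : ℝ) + y * I : ℂ)).re = -(3 / 2) := by
      simp
      norm_num
    rw [norm_mul, Complex.norm_cpow_eq_rpow_re_of_pos hx0, h2]
    have h3 := hg y
    have e : -y ^ 2 / 4 = -(1 / 4) * y ^ 2 := by ring
    rw [e] at h3
    calc _ ≤ (B * X ^ (1 : ℝ) * Real.exp (-(1 / 4) * y ^ 2)) * x ^ (-(3 / 2) : ℝ) := by
          gcongr
      _ = _ := by ring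
  have h4 := norm_integral_le_of_norm_le (hi.const_mul (B * X ^ (1 : ℝ) * x ^ (-(3 / 2) : ℝ)))
    (Filter.Eventually.of_forall h1)
  calc _ ≤ _ := h4
    _ = _ := by
      rw [integral_const_mul]
      ring

private theorem sum_int_le {ι α : Type} [Fintype ι] [MeasurableSpace α] (μ : Measure α)
    (S : Set α) (F : ι → α → ℂ) (G : ι → α → ℝ) (h : ∀ c a, ‖F c a‖ = G c a) :
    ENNReal.ofReal ‖∑ c, ∫ p in S, F c p ∂μ‖ ≤
      ∑ c, ∫⁻ p in S, ENNReal.ofReal (G c p) ∂μ := by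
  rw [ofReal_norm]
  refine (enorm_sum_le _ _).trans (Finset.sum_le_sum fun c _ => ?_)
  refine (enorm_integral_le_lintegral_enorm _).trans (le_of_eq ?_)
  refine lintegral_congr fun a => ?_
  rw [← ofReal_norm, h]

end

open scoped Classical in
theorem pf_BP (hUP : W_UP) (hWL : W_WL) (hBI : W_BI) (hCG : U_CG) (hSY : T_SY) : W_BP := by
  intro n hn κ hκ hκ1
  obtain ⟨C, hC0, hC⟩ := hBI n hn κ hκ hκ1
  obtain ⟨c₀, hc₀, hc⟩ := hWL n hn
  refine ⟨c₀⁻¹ * C * 3 ^ n, by positivity, fun K _ _ hK f hf χ t B v hB hWt => ?_⟩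
  obtain ⟨D⟩ := hSY K f hf
  have hd1 : 1 ≤ |(discr K : ℝ)| := one_le_disc
  have hf1 := one_le_Nf hf
  have hCi1 := one_le_Ci χ.k χ.ν t
  have hY1 : 1 ≤ |(discr K : ℝ)| * Nf K f * Ci χ.k χ.ν t :=
    one_le_mul_of_one_le_of_one_le (one_le_mul_of_one_le_of_one_le hd1 hf1) hCi1
  have hPP := PP_le hK χ.k χ.ν t
  have hX2 : Real.sqrt (|(discr K : ℝ)| * Nf K f * Ci χ.k χ.ν t) ^ 2 ≤
      3 ^ n * (dK K * Nf K f * PP (fun v => 1 + ‖cpar χ.k χ.ν t v‖)) := by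
    rw [Real.sq_sqrt (by linarith)]
    have h1 := Ci_le_PP hK χ.k χ.ν t χ.real_k
    unfold dK
    calc |(discr K : ℝ)| * Nf K f * Ci χ.k χ.ν t ≤
        |(discr K : ℝ)| * Nf K f * (3 ^ n * PP (fun v => 1 + ‖cpar χ.k χ.ν t v‖)) := by
          gcongr
      _ = _ := by ring
  have key := hC K hK D.ι D.M D.reps f (cpar χ.k χ.ν t) _ B 1 v
    (fun i => cg χ (D.M i)) true hf (fun v => Rl_cpar _ _ _ v) (Real.one_le_sqrt.2 hY1) hX2 hB
    hWt zero_le_one (fun i => (hCG K _ χ (D.M i) hf (D.reps.1 i)).2.2.2.1)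
    (fun i => (hCG K _ χ (D.M i) hf (D.reps.1 i)).2.1)
  have hU := hUP K f hf χ D.ι D.M D.reps (fun v => GG (pz (rv v)) (cpar χ.k χ.ν t v)) t v
    (Tf_pz _) (Wt_bound hWt)
  set S : ℂ := ∑' J : NZI K, χ.ψ J.1 * v (Ideal.absNorm J.1) *
          (Ideal.absNorm J.1 : ℂ) ^ (-(t * I : ℂ)) with hSdef
  set W : ℂ := WG K (fun v => GG (pz (rv v)) (cpar χ.k χ.ν t v)) χ.k χ.ν t with hWdef
  have hS : ENNReal.ofReal ‖(torsionOrder K : ℂ) * W * S‖ ≤
      ∑ i, ∫⁻ u in Fd K ×ˢ (univ : Set ℝ) ×ˢ An K,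
        ENNReal.ofReal ‖∑' x : {x : K // x ∈ D.M i ∧ x ≠ 0}, cg χ (D.M i) x *
          v (Ideal.absNorm (idl K (D.M i) x)) *
            pF (fun v => GG (pz (rv v)) (cpar χ.k χ.ν t v)) (yM K (D.M i) u.2.1 (zs true u.1))
              (om true u.2.2) x‖ := by
    rw [← hU]
    refine sum_int_le _ _ _ _ fun i a => ?_
    have e : ((t : ℂ) * (a.2.1 : ℂ)) = ((t * a.2.1 : ℝ) : ℂ) := by push_cast; rfl
    rw [norm_mul, norm_mul, norm_mul (ek _ _), ec_norm, ek_norm, e,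
      Complex.norm_exp_ofReal_mul_I, one_mul, one_mul, one_mul]
  have hfin := hS.trans key
  have hHR : 0 ≤ (classNumber K : ℝ) * regulator K :=
    mul_nonneg (Nat.cast_nonneg _) (regulator_pos K).le
  have hPP0 : 0 ≤ PP (fun v => 1 + ‖cpar χ.k χ.ν t v‖) :=
    Finset.prod_nonneg fun v _ => by positivity
  have hdK : dK K = |(discr K : ℝ)| := rfl
  rw [ENNReal.ofReal_le_ofReal_iff (by
    have : 0 ≤ dK K := by rw [hdK]; exact abs_nonneg _
    positivity)] at hfin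
  rw [norm_mul, norm_mul, Complex.norm_natCast] at hfin
  have hWc : c₀ ≤ ‖W‖ := hc K hK χ.k χ.ν t χ.norm_zero
  have hX : Real.sqrt (|(discr K : ℝ)| * Nf K f * Ci χ.k χ.ν t) ^ (2 * κ) =
      (|(discr K : ℝ)| * Nf K f * Ci χ.k χ.ν t) ^ κ := by
    rw [Real.rpow_mul (Real.sqrt_nonneg _), Real.rpow_two, Real.sq_sqrt (by linarith)]
  have hP : PP (fun v => 1 + ‖cpar χ.k χ.ν t v‖) ^ (27 / 164 : ℝ) ≤
      3 ^ n * Ci χ.k χ.ν t ^ (27 / 164 : ℝ) := by
    calc _ ≤ (3 ^ n * Ci χ.k χ.ν t) ^ (27 / 164 : ℝ) :=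
          Real.rpow_le_rpow hPP0 hPP (by norm_num)
      _ = ((3 : ℝ) ^ n) ^ (27 / 164 : ℝ) * Ci χ.k χ.ν t ^ (27 / 164 : ℝ) :=
          Real.mul_rpow (by positivity) (by linarith)
      _ ≤ ((3 : ℝ) ^ n) ^ (1 : ℝ) * Ci χ.k χ.ν t ^ (27 / 164 : ℝ) := by
          refine mul_le_mul_of_nonneg_right ?_ (Real.rpow_nonneg (by linarith) _)
          exact Real.rpow_le_rpow_of_exponent_le (one_le_pow₀ (by norm_num)) (by norm_num)
      _ = _ := by rw [Real.rpow_one]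
  have hY0 : 0 ≤ (|(discr K : ℝ)| * Nf K f * Ci χ.k χ.ν t) ^ κ :=
    Real.rpow_nonneg (by linarith) _
  have hD0 : 0 ≤ dK K ^ (13 / 8 : ℝ) := Real.rpow_nonneg (by rw [hdK]; exact abs_nonneg _) _
  have h1 : c₀ * ‖S‖ ≤ C * B * (classNumber K * regulator K) * Nf K f *
      dK K ^ (13 / 8 : ℝ) * (|(discr K : ℝ)| * Nf K f * Ci χ.k χ.ν t) ^ κ *
        (3 ^ n * Ci χ.k χ.ν t ^ (27 / 164 : ℝ)) := by
    calc c₀ * ‖S‖ ≤ ‖W‖ * ‖S‖ := by gcongr
      _ ≤ (torsionOrder K : ℝ) * ‖W‖ * ‖S‖ := by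
        have h2 : (1 : ℝ) ≤ (torsionOrder K : ℝ) := one_le_tor
        have h3 : 0 ≤ ‖W‖ * ‖S‖ := by positivity
        nlinarith
      _ ≤ _ := hfin
      _ ≤ _ := by
        rw [hX, mul_one]
        have : 0 ≤ Nf K f := by linarith
        gcongr
  have h2 : ‖S‖ ≤ c₀⁻¹ * (C * B * (classNumber K * regulator K) * Nf K f *
      dK K ^ (13 / 8 : ℝ) * (|(discr K : ℝ)| * Nf K f * Ci χ.k χ.ν t) ^ κ *
        (3 ^ n * Ci χ.k χ.ν t ^ (27 / 164 : ℝ))) := by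
    rw [inv_mul_eq_div, le_div_iff₀ hc₀, mul_comm]
    exact h1
  refine h2.trans (le_of_eq ?_)
  ring

end Pool.Agent.H2.SWL
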